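import Pool.Agent.TH972.U.Heavy

/-!
# The diameter exponent of the random spanning tree with weights `exp (U ^ (-γ))`, all `γ > 0`

The definitions `env`, `treeWt`, `gibbs`, `avg`, `HasExponent` are in `Pool.Agent.W842.RST.Defs`.
-/

set_option autoImplicit false

open Pool.Agent.W842.RST Filter Topology

namespace Pool.Agent.Results.MP_1c11af_pr.DiameterExponent

/-- The exponent is at most any other exponent, hence it is unique. -/
theorem le_of_hasExponent {γ α β : ℝ} (hα : HasExponent γ α) (hβ : HasExponent γ β) : α ≤ β :=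
  exponent_le hα fun ε hε =>
    tendsto_of_tendsto_of_tendsto_of_le_of_le (hβ ε hε) tendsto_const_nhds
      (fun _ => avg_mono γ _ _ fun _ h => h.2) (fun n => avg_le_one γ n _)

/-- The exponent for every `γ > 0`. -/
theorem hasExponent {γ : ℝ} (h0 : 0 < γ) : HasExponent γ (max (1 / 3) ((1 - γ) / 2)) := by
  rcases lt_or_ge γ (1 / 3) with h | h
  · have e : max (1 / 3) ((1 - γ) / 2) = (1 - γ) / 2 := max_eq_right (by linarith)
    rw [e]
    exact Pool.Agent.TH972.U.sharp_heavy γ h0 h
  · have e : max (1 / 3) ((1 - γ) / 2) = 1 / 3 := max_eq_left (by linarith)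
    rw [e]
    exact hasExponent_third h

/-- For every `γ > 0` the diameter is `n ^ (α + o(1))` with averaged probability tending to one
for exactly one number `α`, namely `α = max (1/3) ((1 - γ)/2)`; so an exponent in the open
interval `(1/3, 1/2)` exists if and only if `γ < 1/3`. -/
theorem result : ∀ γ : ℝ, 0 < γ →
    (∀ α : ℝ, HasExponent γ α ↔ α = max (1 / 3) ((1 - γ) / 2)) ∧
    ((∃ α : ℝ, 1 / 3 < α ∧ α < 1 / 2 ∧ HasExponent γ α) ↔ γ < 1 / 3) := by
  intro γ h0
  have key : ∀ α : ℝ, HasExponent γ α ↔ α = max (1 / 3) ((1 - γ) / 2) := by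
    intro α
    constructor
    · intro h
      exact le_antisymm (le_of_hasExponent h (hasExponent h0)) (le_of_hasExponent (hasExponent h0) h)
    · rintro rfl
      exact hasExponent h0
  refine ⟨key, ?_, ?_⟩
  · rintro ⟨α, h1, _, hα⟩
    rw [key α] at hα
    by_contra h
    push Not at h
    rw [max_eq_left (by linarith)] at hα
    linarith
  · intro h
    refine ⟨(1 - γ) / 2, by linarith, by linarith, (key _).2 ?_⟩
    exact (max_eq_right (by linarith)).symm

end Pool.Agent.Results.MP_1c11af_pr.DiameterExponent
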